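import Mathlib
import Pool.Agent.H7.Erdos

set_option autoImplicit false

namespace Pool.Agent.Results.MP_2d3ccd_co.AllK

open SimpleGraph

/-- `D` is a semi-transitive orientation of `G`. -/
def IsSemiTransOri {V : Type} (G : SimpleGraph V) (D : V → V → Prop) : Prop :=
  (∀ u v, G.Adj u v ↔ (D u v ∨ D v u)) ∧ (∀ u v, D u v → ¬ D v u) ∧
  (∀ v, ¬ Relation.TransGen D v v) ∧
  ∀ (t : ℕ) (p : ℕ → V), 2 ≤ t → (∀ i, i < t → D (p i) (p (i + 1))) → D (p 0) (p t) →
    ∀ i j, i < j → j ≤ t → D (p i) (p j)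

def SemiTransitive {V : Type} (G : SimpleGraph V) : Prop := ∃ D, IsSemiTransOri G D

theorem lift {V W : Type} {G : SimpleGraph V} {K : SimpleGraph W} (f : G ↪g K)
    (hcl : ∀ a y, K.Adj (f a) y → ∃ b, y = f b) :
    ∀ {x y : W} (w : K.Walk x y) (a : V) (hx : x = f a),
      ∃ b, ∃ hy : y = f b, ∃ p : G.Walk a b, w.copy hx hy = p.map f.toHom := by
  intro x y w
  induction w with
  | nil => intro a hx; subst hx; exact ⟨a, rfl, .nil, rfl⟩
  | cons h q ih =>
    intro a hx
    subst hx
    obtain ⟨c, rfl⟩ := hcl _ _ h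
    obtain ⟨b, rfl, p, hp⟩ := ih c rfl
    refine ⟨b, rfl, .cons (f.map_adj_iff.1 h) p, ?_⟩
    simp only [Walk.copy_rfl_rfl] at hp ⊢
    rw [hp]; rfl

theorem lift_cycle {V W : Type} {G : SimpleGraph V} {K : SimpleGraph W} (f : G ↪g K)
    (hcl : ∀ a y, K.Adj (f a) y → ∃ b, y = f b) (a : V) (w : K.Walk (f a) (f a))
    (hw : w.IsCycle) : G.egirth ≤ w.length := by
  obtain ⟨b, hy, p, hp⟩ := lift f hcl w a rfl
  obtain rfl : a = b := f.injective hy
  simp only [Walk.copy_rfl_rfl] at hp
  subst hp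
  have := egirth_le_length ((Walk.isCycle_map_iff_of_injective f.injective).1 hw)
  simpa using this

theorem path_walk {V : Type} {G : SimpleGraph V} (p : ℕ → V) :
    ∀ t, (∀ i, i < t → G.Adj (p i) (p (i + 1))) → ∃ w : G.Walk (p t) (p 0),
      w.length = t ∧ (∀ x ∈ w.support, ∃ i ≤ t, x = p i) ∧
      (∀ e ∈ w.edges, ∃ i < t, e = s(p (i + 1), p i)) ∧
      ((∀ i j, i < j → j ≤ t → p i ≠ p j) → w.IsPath)
  | 0, _ => ⟨.nil, rfl, by simp, by simp, by simp⟩
  | t + 1, h => by
    obtain ⟨w, h1, h2, h3, h4⟩ := path_walk p t (fun i hi => h i (by omega))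
    refine ⟨.cons (h t (by omega)).symm w, by simp [h1], ?_, ?_, ?_⟩
    · intro x hx
      rw [Walk.support_cons, List.mem_cons] at hx
      rcases hx with rfl | hx
      · exact ⟨t + 1, le_rfl, rfl⟩
      · obtain ⟨i, hi, rfl⟩ := h2 x hx
        exact ⟨i, by omega, rfl⟩
    · intro e he
      rw [Walk.edges_cons, List.mem_cons] at he
      rcases he with rfl | he
      · exact ⟨t, by omega, rfl⟩
      · obtain ⟨i, hi, rfl⟩ := h3 e he
        exact ⟨i, by omega, rfl⟩
    · intro hinj
      rw [Walk.cons_isPath_iff]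
      refine ⟨h4 (fun i j hij hj => hinj i j hij (by omega)), fun hx => ?_⟩
      obtain ⟨i, hi, he⟩ := h2 _ hx
      exact hinj i (t + 1) (by omega) le_rfl he.symm

theorem close_cycle {V : Type} {G : SimpleGraph V} (p : ℕ → V) (t : ℕ) (ht : 2 ≤ t)
    (h : ∀ i, i < t → G.Adj (p i) (p (i + 1))) (h0 : G.Adj (p 0) (p t))
    (hinj : ∀ i j, i < j → j ≤ t → p i ≠ p j) :
    ∃ w : G.Walk (p 0) (p 0), w.IsCycle ∧ w.length = t + 1 := by
  obtain ⟨w, h1, -, h3, h4⟩ := path_walk p t h
  refine ⟨.cons h0 w, (Walk.cons_isCycle_iff _ _).2 ⟨h4 hinj, fun he => ?_⟩, by simp [h1]⟩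
  obtain ⟨i, hi, he⟩ := h3 _ he
  rcases Sym2.eq_iff.1 he with ⟨a, -⟩ | ⟨a, b⟩
  · exact hinj 0 (i + 1) (by omega) (by omega) a
  · rcases Nat.eq_zero_or_pos i with rfl | hi0
    · exact hinj 1 t (by omega) le_rfl b.symm
    · exact hinj 0 i hi0 (by omega) a

theorem cyc_girth (n : ℕ) : (cycleGraph (n + 3)).egirth = (n + 3 : ℕ) := by
  classical
  apply le_antisymm
  · have := egirth_le_length (cycleGraph.isCycle_cycle (n := n))
    rwa [cycleGraph.length_cycle] at this
  rw [le_egirth]
  intro a w hw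
  have hcl : ∀ x, x ∈ w.support → ∀ y, (cycleGraph (n + 3)).Adj x y → y ∈ w.support := by
    intro x hx y hxy
    have h2 := hw.ncard_neighborSet_toSubgraph_eq_two hx
    have hsub : w.toSubgraph.neighborSet x ⊆ (cycleGraph (n + 3)).neighborSet x :=
      w.toSubgraph.neighborSet_subset x
    have h3 : ((cycleGraph (n + 3)).neighborSet x).ncard = 2 := by
      rw [← cycleGraph_degree_three_le (n := n) (v := x), ← card_neighborSet_eq_degree,
        Set.ncard_eq_toFinset_card', Set.toFinset_card]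
    have := Set.eq_of_subset_of_ncard_le hsub (by omega)
    have hy : y ∈ w.toSubgraph.neighborSet x := this ▸ hxy
    exact (Walk.mem_verts_toSubgraph w).1 (w.toSubgraph.edge_vert (Subgraph.Adj.symm hy))
  have hall : ∀ y, y ∈ w.support := by
    intro y
    obtain ⟨q⟩ := (cycleGraph_preconnected (n := n + 3)) a y
    have : ∀ {x y} (q : (cycleGraph (n + 3)).Walk x y), x ∈ w.support → y ∈ w.support := by
      intro x y q
      induction q with
      | nil => exact id
      | cons h _ ih => exact fun hx => ih (hcl _ hx _ h)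
    exact this q w.start_mem_support
  have h1 : (Finset.univ : Finset (Fin (n + 3))) ⊆ w.support.tail.toFinset := by
    intro y _
    rw [List.mem_toFinset]
    have hy := hall y
    rw [← w.cons_tail_support, List.mem_cons] at hy
    rcases hy with rfl | hy
    · exact w.end_mem_tail_support hw.not_nil
    · exact hy
  have h2 := (Finset.card_le_card h1).trans (List.toFinset_card_le _)
  simp at h2
  exact_mod_cast h2

theorem crit (k : ℕ) (hk : 1 ≤ k) : ∃ (n : ℕ) (G : SimpleGraph (Fin n)),
    ((k + 2 : ℕ) : ℕ∞) ≤ G.egirth ∧ ¬ G.Colorable k ∧ G.Colorable (k + 1) := by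
  classical
  obtain ⟨n, G0, h1, h2⟩ := Pool.Agent.H7.Erdos.exists_girth_chrom (k + 2) k
  obtain ⟨G, hle, hG⟩ := Finite.exists_le_minimal
    (p := fun G : SimpleGraph (Fin n) => ¬ G.Colorable k) h2
  refine ⟨n, G, h1.trans (egirth_anti hle), hG.prop, ?_⟩
  have hne : G ≠ ⊥ := by
    rintro rfl
    exact hG.prop ⟨Coloring.mk (fun _ => ⟨0, hk⟩) (fun h => h.elim)⟩
  obtain ⟨u, v, huv⟩ := ne_bot_iff_exists_adj.1 hne
  have : (G.deleteEdges {s(u, v)}).Colorable k := by
    by_contra hc
    have := hG.2 hc (deleteEdges_le _) huv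
    simp at this
  obtain ⟨c⟩ := this
  refine ⟨Coloring.mk (fun x => if x = u then Fin.last k else (c x).castSucc) ?_⟩
  intro x y hxy
  by_cases hx : x = u
  · subst hx
    simp only [if_true, if_neg hxy.ne.symm]
    exact (Fin.castSucc_lt_last _).ne'
  · by_cases hy : y = u
    · subst hy
      simp only [if_true, if_neg hx]
      exact (Fin.castSucc_lt_last _).ne
    · simp only [if_neg hx, if_neg hy]
      intro h
      refine c.valid (v := x) (w := y) ?_ (Fin.castSucc_injective _ h)
      rw [deleteEdges_adj]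
      refine ⟨hxy, ?_⟩
      simp [hx, hy]

theorem result (k : ℕ) (hk : 4 ≤ k) : ∃ (V : Type) (_ : Finite V) (G : SimpleGraph V),
    SemiTransitive G ∧ G.chromaticNumber = k ∧ G.egirth = k := by
  classical
  obtain ⟨m, rfl⟩ : ∃ m, k = m + 3 := ⟨k - 3, by omega⟩
  obtain ⟨n, G, hg, hn, hc⟩ := crit (m + 2) (by omega)
  obtain ⟨c1⟩ := id hc
  let c2 := cycleGraph.tricoloring (m + 3) (by omega)
  set K := G ⊕g cycleGraph (m + 3) with hK
  have hl : ∀ a y, K.Adj (Sum.inl a) y → ∃ b, y = Sum.inl b := by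
    rintro a (b | b) h
    · exact ⟨b, rfl⟩
    · simp [hK] at h
  have hr : ∀ a y, K.Adj (Sum.inr a) y → ∃ b, y = Sum.inr b := by
    rintro a (b | b) h
    · simp [hK] at h
    · exact ⟨b, rfl⟩
  have gl : ∀ a (w : K.Walk (Sum.inl a) (Sum.inl a)), w.IsCycle → m + 4 ≤ w.length := by
    intro a w hw
    have := hg.trans (lift_cycle (Embedding.sumInl (G := G) (H := cycleGraph (m + 3))) hl a w hw)
    exact_mod_cast this
  have gr : ∀ a (w : K.Walk (Sum.inr a) (Sum.inr a)), w.IsCycle → m + 3 ≤ w.length := by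
    intro a w hw
    have := lift_cycle (Embedding.sumInr (G := G) (H := cycleGraph (m + 3))) hr a w hw
    rw [cyc_girth] at this
    exact_mod_cast this
  let c : Fin n ⊕ Fin (m + 3) → ℕ := Sum.elim (fun a => (c1 a).val) (fun b => (c2 b).val)
  have hcv : ∀ x y, K.Adj x y → c x ≠ c y := by
    rintro (a | a) (b | b) h
    · exact fun e => c1.valid (sum_adj_inl.1 h) (Fin.ext e)
    · simp [hK] at h
    · simp [hK] at h
    · exact fun e => c2.valid (sum_adj_inr.1 h) (Fin.ext e)
  refine ⟨Fin n ⊕ Fin (m + 3), inferInstance, K, ⟨fun x y => K.Adj x y ∧ c x < c y, ?_, ?_, ?_, ?_⟩,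
    ?_, ?_⟩
  · intro x y
    constructor
    · intro h
      rcases lt_or_gt_of_ne (hcv x y h) with h' | h'
      · exact Or.inl ⟨h, h'⟩
      · exact Or.inr ⟨h.symm, h'⟩
    · rintro (h | h)
      · exact h.1
      · exact h.1.symm
  · intro x y h h'
    exact lt_asymm h.2 h'.2
  · have : ∀ x y, Relation.TransGen (fun x y => K.Adj x y ∧ c x < c y) x y → c x < c y := by
      intro x y h
      induction h with
      | single h => exact h.2
      | tail _ h ih => exact ih.trans h.2
    exact fun v h => lt_irrefl _ (this v v h)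
  · intro t p ht hp h0
    exfalso
    have hm : ∀ i d, i + d ≤ t → c (p i) + d ≤ c (p (i + d)) := by
      intro i d
      induction d with
      | zero => simp
      | succ d ih =>
        intro h
        have := ih (by omega)
        have := (hp (i + d) (by omega)).2
        rw [show i + (d + 1) = i + d + 1 from rfl]
        omega
    obtain ⟨w, hw, hlen⟩ := close_cycle (G := K) p t ht (fun i hi => (hp i hi).1) h0.1 (by
      intro i j hij hj e
      have := hm i (j - i) (by omega)
      rw [show i + (j - i) = j by omega, e] at this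
      omega)
    have hT := hm 0 t (by omega)
    rw [zero_add] at hT
    have h1 := h0.1
    generalize p 0 = x at *
    generalize p t = y at *
    rcases x with a | a
    · obtain ⟨b, rfl⟩ := hl _ _ h1
      have := gl a w hw
      have : c (Sum.inl b) < m + 3 := (c1 b).2
      omega
    · obtain ⟨b, rfl⟩ := hr _ _ h1
      have := gr a w hw
      have : c (Sum.inr b) < 3 := (c2 b).2
      omega
  · apply le_antisymm
    · exact Colorable.chromaticNumber_le
        (colorable_sum.2 ⟨hc, Colorable.mono (by simp) c2.colorable⟩)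
    · by_contra h
      have h' : K.chromaticNumber ≤ ((m + 2 : ℕ) : ℕ∞) := by
        rw [not_le] at h
        exact Order.le_of_lt_add_one (by exact_mod_cast h)
      exact hn (colorable_sum.1 (chromaticNumber_le_iff_colorable.1 h')).1
  · apply le_antisymm
    · rw [← cyc_girth]
      exact IsContained.egirth_le ⟨(Embedding.sumInr (G := G)).toCopy⟩
    · rw [le_egirth]
      rintro (a | a) w hw
      · have := gl a w hw
        exact_mod_cast (by omega : m + 3 ≤ w.length)
      · exact_mod_cast gr a w hw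

end Pool.Agent.Results.MP_2d3ccd_co.AllK
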